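import Pool.Agent.H85.KS2.Targets

/-!
Board ks2_modules, row DV: the number of divisibilities.
-/

set_option autoImplicit false

open scoped BigOperators
open Pool.Agent.H98.KS Pool.Agent.H85.KS2

namespace Pool.Agent.H40.KS2

theorem card_JJ (L : ℕ) : (JJ L).card = 16 * L + 1 := by
  unfold JJ
  rw [Int.card_Icc]
  omega

theorem card_HH (L : ℕ) : (HH L).card = 16 * L := by
  unfold HH
  rw [Finset.card_erase_of_mem, card_JJ]
  · omega
  · unfold JJ
    rw [Finset.mem_Icc]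
    omega

theorem mem_JJ {L : ℕ} {x : ℤ} (hx : x ∈ JJ L) : |x| ≤ 8 * L := by
  unfold JJ at hx
  rw [Finset.mem_Icc] at hx
  exact abs_le.2 hx

theorem mem_HH {L : ℕ} {x : ℤ} (hx : x ∈ HH L) : x ≠ 0 ∧ x ∈ JJ L := by
  unfold HH at hx
  exact ⟨Finset.ne_of_mem_erase hx, Finset.mem_of_mem_erase hx⟩

theorem abs_dl_le {k L : ℕ} {h x : ℤ} (hh : |h| ≤ 8 * L) (hx : |x| ≤ 8 * L) :
    |dl k h x| ≤ 2 * (16 * (L : ℤ)) ^ k := by
  unfold dl
  have h1 : |(x + h) ^ k| ≤ (16 * (L : ℤ)) ^ k := by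
    rw [abs_pow]
    refine pow_le_pow_left₀ (abs_nonneg _) ?_ k
    exact (abs_add_le _ _).trans (by linarith)
  have h2 : |x ^ k| ≤ (16 * (L : ℤ)) ^ k := by
    rw [abs_pow]
    refine pow_le_pow_left₀ (abs_nonneg _) ?_ k
    have : (0 : ℤ) ≤ L := Int.natCast_nonneg L
    linarith
  exact (abs_sub _ _).trans (by linarith)

theorem card_roots_le {k : ℕ} (hk : 3 ≤ k) (S : Finset ℤ) {h : ℤ} (hh : h ≠ 0) (c : ℤ) :
    (S.filter fun x => dl k h x = c).card ≤ k := by
  classical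
  set P : Polynomial ℤ := (Polynomial.X + Polynomial.C h) ^ k - Polynomial.X ^ k -
    Polynomial.C c with hPdef
  have hP : P ≠ 0 := by
    intro h0
    have h1 : P.coeff (k - 1) = 0 := by rw [h0, Polynomial.coeff_zero]
    rw [hPdef, Polynomial.coeff_sub, Polynomial.coeff_sub, Polynomial.coeff_X_add_C_pow,
      Polynomial.coeff_X_pow, Polynomial.coeff_C, if_neg (by omega), if_neg (by omega),
      sub_zero, sub_zero, show k - (k - 1) = 1 by omega, pow_one] at h1
    rcases mul_eq_zero.1 h1 with h2 | h2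
    · exact hh h2
    · have h3 : k.choose (k - 1) = 0 := by exact_mod_cast h2
      have h4 : 0 < k.choose (k - 1) := Nat.choose_pos (by omega)
      omega
  have hdeg : P.natDegree ≤ k := by
    rw [hPdef]
    refine (Polynomial.natDegree_sub_le _ _).trans (max_le ?_ ?_)
    · refine (Polynomial.natDegree_sub_le _ _).trans (max_le ?_ ?_)
      · refine Polynomial.natDegree_pow_le.trans ?_
        rw [Polynomial.natDegree_X_add_C, mul_one]
      · rw [Polynomial.natDegree_X_pow]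
    · rw [Polynomial.natDegree_C]
      exact Nat.zero_le _
  have hsub : (S.filter fun x => dl k h x = c) ⊆ P.roots.toFinset := by
    intro x hx
    have h1 := (Finset.mem_filter.1 hx).2
    rw [Multiset.mem_toFinset, Polynomial.mem_roots hP, Polynomial.IsRoot.def, hPdef]
    simp only [Polynomial.eval_sub, Polynomial.eval_pow, Polynomial.eval_add,
      Polynomial.eval_X, Polynomial.eval_C]
    unfold dl at h1
    rw [h1, sub_self]
  calc _ ≤ P.roots.toFinset.card := Finset.card_le_card hsub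
    _ ≤ Multiset.card P.roots := Multiset.toFinset_card_le _
    _ ≤ P.natDegree := Polynomial.card_roots' P
    _ ≤ k := hdeg

theorem card_dvd_le (S : Finset ℤ) {n : ℤ} (hn : n ≠ 0) :
    (S.filter fun h => h ∣ n).card ≤ 2 * (n.natAbs.divisors).card := by
  classical
  have hsub : (S.filter fun h => h ∣ n) ⊆ (n.natAbs.divisors.image fun d : ℕ => (d : ℤ)) ∪
      (n.natAbs.divisors.image fun d : ℕ => -(d : ℤ)) := by
    intro h hh
    have h1 := (Finset.mem_filter.1 hh).2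
    have h2 : h.natAbs ∈ n.natAbs.divisors :=
      Nat.mem_divisors.2 ⟨Int.natAbs_dvd_natAbs.2 h1, Int.natAbs_ne_zero.2 hn⟩
    rcases Int.natAbs_eq h with h3 | h3
    · exact Finset.mem_union_left _ (Finset.mem_image.2 ⟨_, h2, h3.symm⟩)
    · exact Finset.mem_union_right _ (Finset.mem_image.2 ⟨_, h2, h3.symm⟩)
  calc _ ≤ _ := Finset.card_le_card hsub
    _ ≤ _ := Finset.card_union_le _ _
    _ ≤ (n.natAbs.divisors).card + (n.natAbs.divisors).card :=
        add_le_add Finset.card_image_le Finset.card_image_le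
    _ = _ := by ring

theorem ks2_DV (hDB : T_DB) : T_DV := by
  intro k hk ε hε
  have hk0 : (0 : ℝ) < k := by exact_mod_cast (by omega : 0 < k)
  obtain ⟨C, hC, hD⟩ := hDB (ε / k) (by positivity)
  set A : ℝ := (4 * (16 : ℝ) ^ k) ^ (ε / k) with hA
  have hA0 : 0 < A := by positivity
  refine ⟨2 * C * A * (16 * 17 ^ 2) + 16 * 17 * 16 * k, by positivity, fun L hL => ?_⟩
  have hL1 : (1 : ℝ) ≤ L := by exact_mod_cast hL
  have hL0 : (0 : ℝ) < L := by linarith
  have e1 : ∑ h ∈ HH L, ∑ h' ∈ HH L, (DD k L h h' : ℝ) =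
      ∑ h' ∈ HH L, ∑ p ∈ JJ L ×ˢ JJ L,
        (((HH L).filter fun h => h ∣ dl k h' p.1 - dl k h' p.2).card : ℝ) := by
    rw [Finset.sum_comm]
    refine Finset.sum_congr rfl fun h' _ => ?_
    unfold DD
    simp only [Finset.card_filter, Nat.cast_sum]
    rw [Finset.sum_comm]
  rw [e1]
  have e2 : ∀ h' ∈ HH L, ∀ p ∈ JJ L ×ˢ JJ L,
      (((HH L).filter fun h => h ∣ dl k h' p.1 - dl k h' p.2).card : ℝ) ≤
        2 * C * A * (L : ℝ) ^ ε + if dl k h' p.1 = dl k h' p.2 then 16 * (L : ℝ) else 0 := by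
    intro h' hh' p hp
    have hh1 := mem_JJ (mem_HH hh').2
    have hp1 := mem_JJ (Finset.mem_product.1 hp).1
    have hp2 := mem_JJ (Finset.mem_product.1 hp).2
    have hpos : 0 ≤ 2 * C * A * (L : ℝ) ^ ε := by positivity
    split_ifs with h0
    · have h1 : (((HH L).filter fun h => h ∣ dl k h' p.1 - dl k h' p.2).card : ℝ) ≤
          ((HH L).card : ℝ) := by
        exact_mod_cast Finset.card_filter_le _ _
      rw [card_HH] at h1
      push_cast at h1
      linarith
    · have hn : dl k h' p.1 - dl k h' p.2 ≠ 0 := sub_ne_zero.2 h0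
      set n : ℤ := dl k h' p.1 - dl k h' p.2 with hndef
      have h1 : (((HH L).filter fun h => h ∣ n).card : ℝ) ≤
          2 * ((n.natAbs.divisors.card : ℕ) : ℝ) := by
        exact_mod_cast card_dvd_le (HH L) hn
      have h2 := hD n.natAbs (Nat.one_le_iff_ne_zero.2 (Int.natAbs_ne_zero.2 hn))
      have h3 : |n| ≤ 4 * (16 * (L : ℤ)) ^ k := by
        rw [hndef]
        refine (abs_sub _ _).trans ?_
        linarith [abs_dl_le (k := k) hh1 hp1, abs_dl_le (k := k) hh1 hp2]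
      have h4 : ((n.natAbs : ℕ) : ℝ) ≤ 4 * (16 : ℝ) ^ k * (L : ℝ) ^ k := by
        have h5 : ((n.natAbs : ℕ) : ℤ) ≤ 4 * (16 * (L : ℤ)) ^ k := by
          rw [Int.natCast_natAbs]
          exact h3
        have h6 : ((n.natAbs : ℕ) : ℝ) ≤ 4 * (16 * (L : ℝ)) ^ k := by
          exact_mod_cast h5
        rw [mul_pow] at h6
        linarith
      have h5 : ((n.natAbs : ℕ) : ℝ) ^ (ε / k) ≤ A * (L : ℝ) ^ ε := by
        refine (Real.rpow_le_rpow (Nat.cast_nonneg _) h4 (by positivity)).trans (le_of_eq ?_)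
        rw [Real.mul_rpow (by positivity) (by positivity), hA]
        congr 1
        rw [← Real.rpow_natCast, ← Real.rpow_mul hL0.le]
        congr 1
        field_simp
      have h6 : C * ((n.natAbs : ℕ) : ℝ) ^ (ε / k) ≤ C * (A * (L : ℝ) ^ ε) :=
        mul_le_mul_of_nonneg_left h5 hC.le
      rw [add_zero]
      linarith
  have e3 : ∀ h' ∈ HH L, ∑ p ∈ JJ L ×ˢ JJ L,
      (if dl k h' p.1 = dl k h' p.2 then 16 * (L : ℝ) else 0) ≤
        (16 * L + 1) * (k * (16 * L)) := by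
    intro h' hh'
    rw [Finset.sum_product_right]
    have h1 : ∀ x₂ ∈ JJ L, ∑ x₁ ∈ JJ L, (if dl k h' x₁ = dl k h' x₂ then 16 * (L : ℝ) else 0) ≤
        k * (16 * L) := by
      intro x₂ _
      rw [← Finset.sum_filter, Finset.sum_const, nsmul_eq_mul]
      have h2 : ((((JJ L).filter fun x₁ => dl k h' x₁ = dl k h' x₂).card : ℕ) : ℝ) ≤ k := by
        exact_mod_cast card_roots_le hk (JJ L) (mem_HH hh').1 (dl k h' x₂)
      exact mul_le_mul_of_nonneg_right h2 (by positivity)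
    refine (Finset.sum_le_sum h1).trans ?_
    rw [Finset.sum_const, nsmul_eq_mul, card_JJ]
    push_cast
    exact le_rfl
  have e4 : ∀ h' ∈ HH L, ∑ p ∈ JJ L ×ˢ JJ L,
      (((HH L).filter fun h => h ∣ dl k h' p.1 - dl k h' p.2).card : ℝ) ≤
        (16 * L + 1) ^ 2 * (2 * C * A * (L : ℝ) ^ ε) + (16 * L + 1) * (k * (16 * L)) := by
    intro h' hh'
    refine (Finset.sum_le_sum (e2 h' hh')).trans ?_
    rw [Finset.sum_add_distrib, Finset.sum_const, nsmul_eq_mul, Finset.card_product, card_JJ]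
    refine add_le_add (le_of_eq ?_) (e3 h' hh')
    push_cast
    ring
  refine (Finset.sum_le_sum e4).trans ?_
  rw [Finset.sum_const, nsmul_eq_mul, card_HH]
  push_cast
  have hLε : 1 ≤ (L : ℝ) ^ ε := Real.one_le_rpow hL1 hε.le
  have h17 : (16 * (L : ℝ) + 1) ≤ 17 * L := by linarith
  have e5 : (L : ℝ) ^ (3 + ε) = (L : ℝ) ^ 3 * (L : ℝ) ^ ε := by
    rw [Real.rpow_add hL0]
    norm_num
  rw [e5]
  have e6 : (16 * (L : ℝ)) * ((16 * L + 1) ^ 2 * (2 * C * A * (L : ℝ) ^ ε)) ≤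
      (16 * (L : ℝ)) * ((17 * L) ^ 2 * (2 * C * A * (L : ℝ) ^ ε)) := by
    gcongr
  have e7 : (16 * (L : ℝ)) * ((16 * L + 1) * (k * (16 * L))) ≤
      (16 * (L : ℝ)) * ((17 * L) * (k * (16 * L))) := by
    gcongr
  have e8 : (16 * (L : ℝ)) * ((17 * L) * (k * (16 * L))) ≤
      16 * 17 * 16 * k * ((L : ℝ) ^ 3 * (L : ℝ) ^ ε) := by
    have h1 : (16 * (L : ℝ)) * ((17 * L) * (k * (16 * L))) = 16 * 17 * 16 * k * (L : ℝ) ^ 3 := by
      ring
    rw [h1]
    refine mul_le_mul_of_nonneg_left ?_ (by positivity)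
    have h2 : 0 < (L : ℝ) ^ 3 := by positivity
    nlinarith
  calc _ = (16 * (L : ℝ)) * ((16 * L + 1) ^ 2 * (2 * C * A * (L : ℝ) ^ ε)) +
        (16 * (L : ℝ)) * ((16 * L + 1) * (k * (16 * L))) := by ring
    _ ≤ (16 * (L : ℝ)) * ((17 * L) ^ 2 * (2 * C * A * (L : ℝ) ^ ε)) +
        16 * 17 * 16 * k * ((L : ℝ) ^ 3 * (L : ℝ) ^ ε) := by linarith
    _ = _ := by ring

end Pool.Agent.H40.KS2
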